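import Pool.Agent.H97.SWX.CF0

/-!
# FD: from the finite ring to the lattice (sub-Weyl bound in the whole conductor)
-/

set_option autoImplicit false

open NumberField NumberField.InfinitePlace NumberField.Units
  NumberField.Units.dirichletUnitTheorem MeasureTheory Set Filter Complex
open scoped nonZeroDivisors ENNReal

namespace Pool.Agent.H31.SWX.FD

open Pool.Agent.H25.HK Pool.Agent.H23.LB Pool.Agent.H23.LC
open Pool.Agent.H28.RC (Rep ft idl)
open Pool.Agent.H29.TC (Gn LC cq dvs AC MC)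
open Pool.Agent.H26.THC Pool.Agent.H26.GLA
open Pool.Agent.H31.SX
open Pool.Agent.H31.SW (dif)
open Pool.Agent.H97.SWX.CF (cmul cadd csub zero_mem_FI)

/-- the number of annihilated elements -/
private theorem card_ann {R : Type} [CommRing R] [Finite R] (β : R) :
    {δ : R | β * δ = 0}.ncard = Nat.card (R ⧸ Ideal.span {β}) := by
  set f : R →ₗ[R] R := LinearMap.toSpanSingleton R R β with hf
  have h1 : Nat.card R = Nat.card (LinearMap.ker f) * Nat.card (R ⧸ LinearMap.ker f) :=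
    Submodule.card_eq_card_quotient_mul_card _
  have h2 : Nat.card (R ⧸ LinearMap.ker f) = Nat.card (LinearMap.range f) :=
    Nat.card_congr (LinearMap.quotKerEquivRange f).toEquiv
  have h3 : LinearMap.range f = Ideal.span {β} := by
    rw [hf, LinearMap.range_toSpanSingleton]
  have h4 : Nat.card R = Nat.card (Ideal.span {β}) * Nat.card (R ⧸ Ideal.span {β}) :=
    Submodule.card_eq_card_quotient_mul_card _
  have h5 : 0 < Nat.card (Ideal.span {β}) := Nat.card_pos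
  have h6 : {δ : R | β * δ = 0}.ncard = Nat.card (LinearMap.ker f) := by
    rw [← Nat.card_coe_set_eq]
    refine Nat.card_congr (Equiv.subtypeEquivRight fun δ => ?_)
    rw [Set.mem_ofPred_eq, LinearMap.mem_ker, hf, LinearMap.toSpanSingleton_apply, smul_eq_mul,
      mul_comm]
  rw [h6]
  rw [h2, h3] at h1
  have h7 : Nat.card (LinearMap.ker f) * Nat.card (Ideal.span {β}) =
      Nat.card (R ⧸ Ideal.span {β}) * Nat.card (Ideal.span {β}) := by
    rw [← h1, h4, mul_comm]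
  exact Nat.eq_of_mul_eq_mul_right h5 h7

section

variable {K : Type} [Field K] [NumberField K]

private theorem card_quot (k j : Ideal (𝓞 K)) :
    Nat.card ((𝓞 K ⧸ k) ⧸ j.map (Ideal.Quotient.mk k)) = Ideal.absNorm (k ⊔ j) := by
  rw [Nat.card_congr (DoubleQuot.quotQuotEquivQuotSup k j).toEquiv]
  rfl

private theorem absNorm_le_of_le {a b : Ideal (𝓞 K)} (h : a ≤ b) (ha : a ≠ ⊥) :
    Ideal.absNorm b ≤ Ideal.absNorm a :=
  Nat.le_of_dvd (Nat.pos_of_ne_zero fun h0 => ha (Ideal.absNorm_eq_zero_iff.mp h0))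
    (Ideal.absNorm_dvd_absNorm_of_le h)

private theorem smul_mem {I : Ideal (𝓞 K)} {M : FI K} {a : 𝓞 K} {x : K} (ha : a ∈ I)
    (hx : x ∈ M) : (a : K) * x ∈ (I : FI K) * M :=
  FractionalIdeal.mul_mem_mul (FractionalIdeal.mem_coeIdeal_of_mem _ ha) hx

private theorem mul_le_self (I : Ideal (𝓞 K)) (M : FI K) : (I : FI K) * M ≤ M := by
  have h1 := mul_mono_FI (K := K) (I := I) (J := ⊤) le_top M
  have h2 : ((⊤ : Ideal (𝓞 K)) : FI K) = 1 := FractionalIdeal.coeIdeal_top _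
  rw [h2, one_mul] at h1
  exact h1

/-- coordinates of the points of `j L` -/
private theorem coord_mem {k j : Ideal (𝓞 K)} {L : FI K} {y₀ x : K} (hy : Gn k L y₀)
    (hj : k ≤ j) (hx : x ∈ (j : FI K) * L) {a : 𝓞 K} (ha : x - (a : K) * y₀ ∈ (k : FI K) * L) :
    a ∈ j := by
  rw [← hy.iff a j hj]
  have e : (a : K) * y₀ = x - (x - (a : K) * y₀) := by ring
  rw [e]
  exact fsub K _ hx (mul_mono_FI hj L ha)

private theorem mem_coord {k j : Ideal (𝓞 K)} {L : FI K} {y₀ x : K} (hy : Gn k L y₀)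
    (hj : k ≤ j) {a : 𝓞 K} (haj : a ∈ j) (ha : x - (a : K) * y₀ ∈ (k : FI K) * L) :
    x ∈ (j : FI K) * L := by
  have e : x = (x - (a : K) * y₀) + (a : K) * y₀ := by ring
  rw [e]
  exact fadd K _ (mul_mono_FI hj L ha) (smul_mem haj hy.mem)

/-- the greatest common divisor in coordinates -/
private theorem gcd_eq {k : Ideal (𝓞 K)} {L : FI K} {y₀ g : K} (hy : Gn k L y₀)
    {b : 𝓞 K} (hb : g - (b : K) * y₀ ∈ (k : FI K) * L) {e : Ideal (𝓞 K)} (he : Gcd k L g e) :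
    e = Ideal.span {b} ⊔ k := by
  refine le_antisymm ?_ ?_
  · refine he.min _ le_sup_right ?_
    exact mem_coord hy le_sup_right (Ideal.mem_sup_left (Ideal.mem_span_singleton_self b)) hb
  · refine sup_le ?_ he.le
    rw [Ideal.span_singleton_le_iff_mem]
    exact coord_mem hy he.le he.mem hb

private theorem sup_mul_eq (k : Ideal (𝓞 K)) (b₁ b₂ b₃ : 𝓞 K) :
    k ⊔ (Ideal.span {b₁} ⊔ k) * (Ideal.span {b₂} ⊔ k) * (Ideal.span {b₃} ⊔ k) =
      k ⊔ Ideal.span {b₁ * b₂ * b₃} := by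
  refine le_antisymm (sup_le le_sup_left ?_) (sup_le le_sup_left ?_)
  · have h1 : ∀ a b : 𝓞 K, (Ideal.span {a} ⊔ k) * (Ideal.span {b} ⊔ k) ≤
        Ideal.span {a * b} ⊔ k := by
      intro a b
      rw [Ideal.mul_le]
      intro x hx y hy
      rw [Ideal.mem_span_singleton_sup] at hx hy ⊢
      obtain ⟨x1, x2, hx2, rfl⟩ := hx
      obtain ⟨y1, y2, hy2, rfl⟩ := hy
      refine ⟨x1 * y1, x1 * a * y2 + x2 * (y1 * b + y2), ?_, by ring⟩
      exact add_mem (Ideal.mul_mem_left _ _ hy2) (Ideal.mul_mem_right _ _ hx2)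
    refine (Ideal.mul_mono_left (h1 b₁ b₂)).trans ((h1 (b₁ * b₂) b₃).trans ?_)
    rw [sup_comm]
  · rw [Ideal.span_singleton_le_iff_mem]
    refine Ideal.mem_sup_right ?_
    exact Ideal.mul_mem_mul (Ideal.mul_mem_mul
      (Ideal.mem_sup_left (Ideal.mem_span_singleton_self _))
      (Ideal.mem_sup_left (Ideal.mem_span_singleton_self _)))
      (Ideal.mem_sup_left (Ideal.mem_span_singleton_self _))

/-- differences in coordinates -/
private theorem dif_coord {R : Type} [CommRing R] {k : Ideal (𝓞 K)} {L : FI K} {y₀ : K}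
    (π : 𝓞 K → R) (hπ : ∀ a b, π (a + b) = π a + π b) {F : K → ℂ} {V : R → ℂ} {u : ℂ}
    {ρ : K} {s : ℂ}
    (hF : ∀ (a : 𝓞 K) (y : K), y - (a : K) * y₀ ∈ (k : FI K) * L →
      F y = u * eps K (ρ * y) * V (π a) * s)
    {g : K} {b : 𝓞 K} (hb : g - (b : K) * y₀ ∈ (k : FI K) * L) (a : 𝓞 K) (y : K)
    (ha : y - (a : K) * y₀ ∈ (k : FI K) * L) :
    dif g F y = (u * (starRingEnd ℂ) u * eps K (ρ * g)) * eps K (0 * y) *
      dif (π b) V (π a) * (s * (starRingEnd ℂ) s) := by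
  have h1 : y + g - ((a + b : 𝓞 K) : K) * y₀ ∈ (k : FI K) * L := by
    have e : y + g - ((a + b : 𝓞 K) : K) * y₀ = (y - (a : K) * y₀) + (g - (b : K) * y₀) := by
      rw [cadd]; ring
    rw [e]
    exact fadd K _ ha hb
  have h2 : eps K (ρ * y) * (starRingEnd ℂ) (eps K (ρ * y)) = 1 := by
    rw [Complex.mul_conj, Complex.normSq_eq_norm_sq, eps_norm]
    norm_num
  have h3 : eps K (0 * y) = 1 := by
    rw [zero_mul]
    unfold eps
    simp
  unfold dif
  rw [hF _ _ h1, hF _ _ ha, hπ, h3, mul_add, eps_add]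
  simp only [map_mul]
  linear_combination (u * (starRingEnd ℂ) u * eps K (ρ * g) * V (π a + π b) *
    (starRingEnd ℂ) (V (π a)) * s * (starRingEnd ℂ) s) * h2

/-- the dual of an ideal multiple -/
private theorem mem_du {L : FI K} (hL : L ≠ 0) {y : K} (h : ∀ z ∈ L, eps K (z * y) = 1) :
    y ∈ du K L := by
  unfold du
  rw [FractionalIdeal.mem_dual hL]
  intro m hm
  obtain ⟨n, hn⟩ := (eps_one_iff _).mp (h m hm)
  refine ⟨n, ?_⟩
  rw [Algebra.traceForm_apply, mul_comm, hn]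
  simp

/-- the coordinates of a system of representatives -/
private theorem sum_coord {k : Ideal (𝓞 K)} [Fintype (𝓞 K ⧸ k)] {L : FI K} {y₀ : K}
    (hy : Gn k L y₀) {co : K → 𝓞 K} (hco : ∀ x ∈ L, x - (co x : K) * y₀ ∈ (k : FI K) * L)
    {X : Finset K} (hX : Rep K k L X) (G : 𝓞 K ⧸ k → ℂ) :
    ∑ x ∈ X, G (Ideal.Quotient.mk k (co x)) = ∑ a : 𝓞 K ⧸ k, G a := by
  classical
  refine Finset.sum_bij (fun x _ => Ideal.Quotient.mk k (co x)) ?_ ?_ ?_ ?_
  · intro x _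
    exact Finset.mem_univ _
  · intro x hx x' hx' h
    have h1 : co x - co x' ∈ k := Ideal.Quotient.eq.mp h
    have h2 : x - x' ∈ (k : FI K) * L := by
      have e : x - x' = (x - (co x : K) * y₀) - (x' - (co x' : K) * y₀) +
          ((co x - co x' : 𝓞 K) : K) * y₀ := by
        rw [csub]; ring
      rw [e]
      exact fadd K _ (fsub K _ (hco x (hX.1 x hx)) (hco x' (hX.1 x' hx'))) (smul_mem h1 hy.mem)
    obtain ⟨r0, _, huniq⟩ := hX.2 x (hX.1 x hx)
    have e1 := huniq x ⟨hx, by rw [sub_self]; exact zero_mem_FI _⟩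
    have e2 := huniq x' ⟨hx', h2⟩
    rw [e1, e2]
  · intro a _
    obtain ⟨s, rfl⟩ := Ideal.Quotient.mk_surjective a
    have h1 : (s : K) * y₀ ∈ L := smul_mem_FI _ s hy.mem
    obtain ⟨x, ⟨hxX, hxr⟩, -⟩ := hX.2 _ h1
    refine ⟨x, hxX, ?_⟩
    rw [Ideal.Quotient.eq]
    rw [← hy.iff (co x - s) k le_rfl]
    have e : ((co x - s : 𝓞 K) : K) * y₀ =
        -(x - (co x : K) * y₀) - ((s : K) * y₀ - x) := by
      rw [csub]; ring
    rw [e]
    exact fsub K _ (fneg K _ (hco x (hX.1 x hxX))) hxr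
  · intro x _
    rfl

end

open scoped Classical in
theorem pf_FD (hRA : X_RA) : X_FD := by
  intro K _ _ k r hk hr _ θ W hθ hW L y₀ ρ hL hy F hF
  have hkL : (k : FI K) * L ≠ 0 := mul_ne_zero (FractionalIdeal.coeIdeal_ne_zero.mpr hk) hL
  set π := Ideal.Quotient.mk k with hπ
  have hcard : Fintype.card (𝓞 K ⧸ k) = Ideal.absNorm k := by
    rw [← Nat.card_eq_fintype_card]
    rfl
  have hNk : (0 : ℝ) < Nf K k := by
    unfold Nf
    exact_mod_cast Nat.pos_of_ne_zero fun h0 => hk (Ideal.absNorm_eq_zero_iff.mp h0)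
  have hNr : (1 : ℝ) ≤ Nf K r := by
    unfold Nf
    exact_mod_cast Nat.one_le_iff_ne_zero.mpr fun h0 => hr (Ideal.absNorm_eq_zero_iff.mp h0)
  have hcardR : (Fintype.card (𝓞 K ⧸ k) : ℝ) = Nf K k := by
    unfold Nf
    rw [hcard]
  have hgen : ∀ x : K, ∃ a : 𝓞 K, x ∈ L → x - (a : K) * y₀ ∈ (k : FI K) * L := by
    intro x
    by_cases h : x ∈ L
    · obtain ⟨a, -, ha⟩ := hy.gen x h
      exact ⟨a, fun _ => ha⟩
    · exact ⟨0, fun h' => absurd h' h⟩
  choose co hco using hgen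
  set c : ℂ := ((Real.sqrt (Nf K k) : ℝ) : ℂ) with hc
  have hcn : ‖c‖ = Real.sqrt (Nf K k) := by
    rw [hc, Complex.norm_real, Real.norm_of_nonneg (Real.sqrt_nonneg _)]
  have hsq : 0 < Real.sqrt (Nf K k) := Real.sqrt_pos.mpr hNk
  have hF0 : ∀ (a : 𝓞 K) (y : K), y - (a : K) * y₀ ∈ (k : FI K) * L →
      F y = 1 * eps K (ρ * y) * W (π a) * c⁻¹ := by
    intro a y h
    rw [hF a y h, one_mul]
    rfl
  have hD1 := fun {g : K} {b : 𝓞 K} (hb : g - (b : K) * y₀ ∈ (k : FI K) * L) =>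
    dif_coord (fun a => π a) (fun a b => map_add π a b) hF0 hb
  have hD2 := fun {g : K} {b : 𝓞 K} (hb : g - (b : K) * y₀ ∈ (k : FI K) * L)
      {g' : K} {b' : 𝓞 K} (hb' : g' - (b' : K) * y₀ ∈ (k : FI K) * L) =>
    dif_coord (fun a => π a) (fun a b => map_add π a b) (hD1 hb) hb'
  have hD3 : ∀ {g₁ : K} {b₁ : 𝓞 K}, g₁ - (b₁ : K) * y₀ ∈ (k : FI K) * L →
      ∀ {g₂ : K} {b₂ : 𝓞 K}, g₂ - (b₂ : K) * y₀ ∈ (k : FI K) * L →
      ∀ {g₃ : K} {b₃ : 𝓞 K}, g₃ - (b₃ : K) * y₀ ∈ (k : FI K) * L →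
      ∃ U : ℂ, ‖U‖ * Nf K k ^ 4 = 1 ∧ ∀ (a : 𝓞 K) (y : K), y - (a : K) * y₀ ∈ (k : FI K) * L →
        dif g₃ (dif g₂ (dif g₁ F)) y = U * dif (π b₃) (dif (π b₂) (dif (π b₁) W)) (π a) := by
    intro g₁ b₁ h1 g₂ b₂ h2 g₃ b₃ h3
    have h := dif_coord (fun a => π a) (fun a b => map_add π a b) (hD2 h1 h2) h3
    refine ⟨(1 * (starRingEnd ℂ) 1 * eps K (ρ * g₁) *
      (starRingEnd ℂ) (1 * (starRingEnd ℂ) 1 * eps K (ρ * g₁)) * eps K (0 * g₂) *
      (starRingEnd ℂ) (1 * (starRingEnd ℂ) 1 * eps K (ρ * g₁) *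
      (starRingEnd ℂ) (1 * (starRingEnd ℂ) 1 * eps K (ρ * g₁)) * eps K (0 * g₂)) *
      eps K (0 * g₃)) * (c⁻¹ * (starRingEnd ℂ) c⁻¹ * (starRingEnd ℂ) (c⁻¹ * (starRingEnd ℂ) c⁻¹) *
      (starRingEnd ℂ) (c⁻¹ * (starRingEnd ℂ) c⁻¹ *
        (starRingEnd ℂ) (c⁻¹ * (starRingEnd ℂ) c⁻¹))), ?_, fun a y hay => ?_⟩
    rotate_left
    · rw [h a y hay]
      have h0 : eps K (0 * y) = 1 := by
        rw [zero_mul]; unfold eps; simp
      rw [h0, mul_one, mul_right_comm]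
    · simp only [norm_mul, Complex.norm_conj, eps_norm, norm_one, norm_inv, hcn, mul_one, one_mul]
      have h4 : Real.sqrt (Nf K k) ^ 2 = Nf K k := Real.sq_sqrt hNk.le
      have h5 : Nf K k ^ 4 = Real.sqrt (Nf K k) ^ 8 := by
        nth_rewrite 1 [← h4]
        ring
      rw [h5]
      field_simp
  have hrk : k ⊔ r ≠ ⊥ := fun h => hk (le_bot_iff.mp (h ▸ le_sup_left))
  have hcoord : ∀ {g : K} {b : 𝓞 K}, g ∈ (r : FI K) * L → g - (b : K) * y₀ ∈ (k : FI K) * L →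
      π b ∈ r.map π := by
    intro g b hg hb
    have h1 : b ∈ k ⊔ r := coord_mem hy le_sup_left (mul_mono_FI le_sup_right L hg) hb
    obtain ⟨s1, hs1, s2, hs2, rfl⟩ := Submodule.mem_sup.mp h1
    have h4 : π (s1 + s2) = π s2 := by
      rw [hπ, Ideal.Quotient.eq]
      have e : s1 + s2 - s2 = s1 := by ring
      rw [e]
      exact hs1
    rw [h4]
    exact Ideal.mem_map_of_mem _ hs2
  refine ⟨?_, ?_, ?_⟩
  · intro x hx
    rw [hF0 (co x) x (hco x hx), norm_mul, norm_mul, norm_mul, norm_one, eps_norm, one_mul,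
      one_mul, norm_inv, hcn]
    have h1 := hW.norm (π (co x))
    rw [hcardR] at h1
    have h2 : ‖W (π (co x))‖ ≤ Real.sqrt (Nf K k) := Real.le_sqrt_of_sq_le h1
    rw [← div_eq_mul_inv]
    exact div_le_one_of_le₀ h2 (Real.sqrt_nonneg _)
  · intro g₁ hg₁ g₂ hg₂ g₃ hg₃ x hx t ht
    have m₁ := hco g₁ (mul_le_self r L hg₁)
    have m₂ := hco g₂ (mul_le_self r L hg₂)
    have m₃ := hco g₃ (mul_le_self r L hg₃)
    obtain ⟨U, -, hU⟩ := hD3 m₁ m₂ m₃
    have h1 := hco x hx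
    have h2 : x + t - (co x : K) * y₀ ∈ (k : FI K) * L := by
      have e : x + t - (co x : K) * y₀ = (x - (co x : K) * y₀) + t := by ring
      rw [e]
      exact fadd K _ h1 ht
    rw [hU _ _ h1, hU _ _ h2]
  · intro g₁ hg₁ g₂ hg₂ g₃ hg₃ e₁ e₂ e₃ he₁ he₂ he₃
    have m₁ := hco g₁ (mul_le_self r L hg₁)
    have m₂ := hco g₂ (mul_le_self r L hg₂)
    have m₃ := hco g₃ (mul_le_self r L hg₃)
    obtain ⟨U, hUn, hU⟩ := hD3 m₁ m₂ m₃
    have i₁ := hcoord hg₁ m₁
    have i₂ := hcoord hg₂ m₂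
    have i₃ := hcoord hg₃ m₃
    rw [gcd_eq hy m₁ he₁, gcd_eq hy m₂ he₂, gcd_eq hy m₃ he₃, sup_mul_eq]
    generalize hb₁ : co g₁ = b₁ at *
    generalize hb₂ : co g₂ = b₂ at *
    generalize hb₃ : co g₃ = b₃ at *
    set G : Ideal (𝓞 K) := k ⊔ Ideal.span {b₁ * b₂ * b₃} with hG
    have hG0 : G ≠ ⊥ := fun h => hk (le_bot_iff.mp (h ▸ le_sup_left))
    obtain ⟨A, hA⟩ : ∃ A : Ideal (𝓞 K), k = G * A := Ideal.dvd_iff_le.mpr le_sup_left
    have hA0 : A ≠ ⊥ := by
      rintro rfl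
      exact hk (by rw [hA]; exact Ideal.mul_bot _)
    set s₀ : Ideal (𝓞 K) := (k ⊔ r) ⊓ A with hs₀
    have hks : k ≤ s₀ := le_inf le_sup_left (by rw [hA]; exact Ideal.mul_le_right)
    obtain ⟨e, he⟩ : ∃ e : Ideal (𝓞 K), k = s₀ * e := Ideal.dvd_iff_le.mpr hks
    have hs0 : s₀ ≠ ⊥ := fun h => hk (le_bot_iff.mp (h ▸ hks))
    have he0 : e ≠ ⊥ := by
      rintro rfl
      exact hk (by rw [he]; exact Ideal.mul_bot _)
    have hN1 : Nf K k = Nf K G * Nf K A := by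
      unfold Nf
      rw [← Nat.cast_mul, ← map_mul, ← hA]
    have hN2 : Nf K k = Nf K s₀ * Nf K e := by
      unfold Nf
      rw [← Nat.cast_mul, ← map_mul, ← he]
    have hN3 : Nf K (k ⊔ r) ≤ Nf K r := by
      unfold Nf
      exact_mod_cast absNorm_le_of_le le_sup_right hr
    have hN4 : Nf K s₀ ≤ Nf K (k ⊔ r) * Nf K A := by
      unfold Nf
      rw [← Nat.cast_mul, ← map_mul]
      exact_mod_cast absNorm_le_of_le Ideal.mul_le_inf (mul_ne_zero hrk hA0)
    have hpA : 0 < Nf K A := by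
      unfold Nf
      exact_mod_cast Nat.pos_of_ne_zero fun h0 => hA0 (Ideal.absNorm_eq_zero_iff.mp h0)
    have hpe : 0 < Nf K e := by
      unfold Nf
      exact_mod_cast Nat.pos_of_ne_zero fun h0 => he0 (Ideal.absNorm_eq_zero_iff.mp h0)
    have hpG : 0 < Nf K G := by
      unfold Nf
      exact_mod_cast Nat.pos_of_ne_zero fun h0 => hG0 (Ideal.absNorm_eq_zero_iff.mp h0)
    refine ⟨e, he0, ?_, ?_⟩
    · have h1 : Nf K G * Nf K A ≤ (Nf K e * Nf K r) * Nf K A := by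
        rw [← hN1, hN2]
        calc Nf K s₀ * Nf K e ≤ (Nf K (k ⊔ r) * Nf K A) * Nf K e := by gcongr
          _ ≤ (Nf K r * Nf K A) * Nf K e := by gcongr
          _ = (Nf K e * Nf K r) * Nf K A := by ring
      exact le_of_mul_le_mul_right h1 hpA
    intro X hX y hyd
    -- the character
    have hzero : ∀ a ∈ k, eps K ((a : K) * y₀ * y) = 1 := by
      intro a ha
      exact eps_of_mem hkL (smul_mem ha hy.mem) hyd
    have hφ : ∀ a b : 𝓞 K, π a = π b → eps K ((a : K) * y₀ * y) = eps K ((b : K) * y₀ * y) := by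
      intro a b hab
      have h1 : a - b ∈ k := Ideal.Quotient.eq.mp hab
      have e : (a : K) * y₀ * y = (b : K) * y₀ * y + ((a - b : 𝓞 K) : K) * y₀ * y := by
        rw [csub]; ring
      rw [e, eps_add, hzero _ h1, mul_one]
    obtain ⟨σ, hσ⟩ : ∃ σ : 𝓞 K ⧸ k → 𝓞 K, ∀ q, π (σ q) = q :=
      ⟨fun q => (Ideal.Quotient.mk_surjective q).choose,
        fun q => (Ideal.Quotient.mk_surjective q).choose_spec⟩
    obtain ⟨ξ, hξ⟩ := (hRA (𝓞 K ⧸ k) θ hθ ⊤).1
      (fun q => eps K ((σ q : K) * y₀ * y)) (by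
        intro q _ q' _
        show eps K ((σ (q + q') : K) * y₀ * y) = _
        have h1 : π (σ (q + q')) = π (σ q + σ q') := by rw [hσ, map_add, hσ, hσ]
        rw [hφ _ _ h1, cadd, add_mul, add_mul, eps_add]) (fun q _ => eps_norm _)
    have hch : ∀ a : 𝓞 K, eps K ((a : K) * y₀ * y) = θ (π a * ξ) := by
      intro a
      have h1 := hξ (π a) trivial
      have h2 : π (σ (π a)) = π a := hσ _
      rw [mul_comm (π a) ξ, ← h1, hφ _ _ h2]
    set S : ℂ := ∑ α : 𝓞 K ⧸ k, dif (π b₃) (dif (π b₂) (dif (π b₁) W)) α * θ (α * ξ) with hS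
    have hft : ft K X (dif g₃ (dif g₂ (dif g₁ F))) y = U * S := by
      rw [hS, ← sum_coord hy hco hX, Finset.mul_sum]
      unfold ft
      refine Finset.sum_congr rfl fun x hx => ?_
      have hxL := hX.1 x hx
      rw [hU _ _ (hco x hxL), mul_assoc]
      congr 2
      show eps K (x * y) = _
      rw [← hch]
      have e : x * y = (co x : K) * y₀ * y + (x - (co x : K) * y₀) * y := by ring
      rw [e, eps_add, eps_of_mem hkL (hco x hxL) hyd, mul_one]
    have hann : (({δ : 𝓞 K ⧸ k | π b₁ * π b₂ * π b₃ * δ = 0}.ncard : ℕ) : ℝ) = Nf K G := by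
      rw [card_ann]
      unfold Nf
      have h1 : Ideal.span {π b₁ * π b₂ * π b₃} =
          (Ideal.span {b₁ * b₂ * b₃}).map π := by
        rw [Ideal.map_span, Set.image_singleton, map_mul, map_mul]
      rw [h1, card_quot]
    have hcor := hW.cor _ i₁ _ i₂ _ i₃ ξ
    rw [← hS, hcardR, hann, card_quot] at hcor
    have hcor' : ‖S‖ ^ 2 ≤ Nf K k ^ 9 * Nf K (k ⊔ r) ^ 3 * Nf K G := hcor
    refine ⟨?_, fun hne => ?_⟩
    · rw [hft, norm_mul]
      have hUn' : ‖U‖ = (Nf K k ^ 4)⁻¹ := eq_inv_of_mul_eq_one_left hUn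
      rw [hUn']
      have hpkr : (1 : ℝ) ≤ Nf K (k ⊔ r) := by
        unfold Nf
        exact_mod_cast Nat.one_le_iff_ne_zero.mpr fun h0 => hrk (Ideal.absNorm_eq_zero_iff.mp h0)
      refine (sq_le_sq₀ (by positivity) (by unfold Nf; positivity)).mp ?_
      rw [mul_pow]
      calc ((Nf K k ^ 4)⁻¹) ^ 2 * ‖S‖ ^ 2
          ≤ ((Nf K k ^ 4)⁻¹) ^ 2 * (Nf K k ^ 9 * Nf K (k ⊔ r) ^ 3 * Nf K G) :=
            mul_le_mul_of_nonneg_left hcor' (sq_nonneg _)
        _ = Nf K k * Nf K G * Nf K (k ⊔ r) ^ 3 := by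
            field_simp
        _ ≤ Nf K k * Nf K G * (Nf K r ^ 2) ^ 2 := by
            have h1 : Nf K (k ⊔ r) ^ 3 ≤ (Nf K r ^ 2) ^ 2 := by
              calc Nf K (k ⊔ r) ^ 3 ≤ Nf K r ^ 3 := by gcongr
                _ ≤ Nf K r ^ 4 := pow_le_pow_right₀ hNr (by norm_num)
                _ = (Nf K r ^ 2) ^ 2 := by ring
            exact mul_le_mul_of_nonneg_left h1 (mul_nonneg hNk.le hpG.le)
        _ = (Nf K r ^ 2 * Real.sqrt (Nf K k * Nf K G)) ^ 2 := by
            rw [mul_pow (Nf K r ^ 2), Real.sq_sqrt (mul_nonneg hNk.le hpG.le)]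
            ring
    · have hS0 : S ≠ 0 := by
        intro h
        rw [hft, h, mul_zero] at hne
        exact hne rfl
      have hvan := hW.van _ i₁ _ i₂ _ i₃ ξ hS0
      have hs0L : (s₀ : FI K) * L ≠ 0 :=
        mul_ne_zero (FractionalIdeal.coeIdeal_ne_zero.mpr hs0) hL
      have hy1 : y ∈ du K ((s₀ : FI K) * L) := by
        refine mem_du hs0L fun z hz => ?_
        have hzL := mul_le_self s₀ L hz
        have h1 := hco z hzL
        have h2 : co z ∈ s₀ := coord_mem hy hks hz h1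
        have e1 : z * y = (co z : K) * y₀ * y + (z - (co z : K) * y₀) * y := by ring
        rw [e1, eps_add, eps_of_mem hkL h1 hyd, mul_one, hch]
        refine hvan _ ?_ ?_
        · obtain ⟨s1, hs1, s2, hs2, h3⟩ := Submodule.mem_sup.mp h2.1
          have h4 : π (co z) = π s2 := by
            rw [hπ, Ideal.Quotient.eq, ← h3]
            have e : s1 + s2 - s2 = s1 := by ring
            rw [e]
            exact hs1
          rw [h4]
          exact Ideal.mem_map_of_mem _ hs2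
        · rw [← map_mul, ← map_mul, ← map_mul, hπ, Ideal.Quotient.eq_zero_iff_mem, hA]
          exact Ideal.mul_mem_mul (Ideal.mem_sup_right (Ideal.mem_span_singleton_self _)) h2.2
      have h5 : (k : FI K) * L = (e : FI K) * ((s₀ : FI K) * L) := by
        rw [he, FractionalIdeal.coeIdeal_mul, mul_comm (s₀ : FI K) (e : FI K), mul_assoc]
      rw [h5, mul_du he0 hs0L]
      exact hy1

end Pool.Agent.H31.SWX.FD
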