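import Pool.Agent.H31.SX.TargetsS
import Pool.Agent.H31.SW.TargetsG
import Pool.Agent.H28.RC.Targets1

/-!
# The sum over the residue classes
-/

set_option autoImplicit false

open NumberField NumberField.InfinitePlace MeasureTheory Set Filter Complex
open scoped nonZeroDivisors ENNReal

namespace Pool.Agent.H31.SWX

open Pool.Agent.H31.SW Pool.Agent.H31.SX
open Pool.Agent.H25.HK Pool.Agent.H23.LB
open Pool.Agent.H28.RC (Rep T_RX)
open Pool.Agent.H29.DW (Rl wv Pos rv)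

section

variable {K : Type} [Field K] [NumberField K]

private theorem rs_mono {i j : Ideal (𝓞 K)} (h : i ≤ j) (M : FI K) :
    (i : FI K) * M ≤ (j : FI K) * M := by
  gcongr

/-- the abstract sum over the residue classes -/
private theorem rs_sum (l j : Ideal (𝓞 K)) (hlj : j ≤ l) (M : FI K) (X : Finset K)
    (hX : Rep K j M X) (cc P : K → ℂ) (E B : ℝ)
    (hfin : {x : {x : K // x ∈ M} | P x ≠ 0}.Finite)
    (hcc : ∀ x ∈ M, ∀ t ∈ (l : FI K) * M, cc (x + t) = cc x) (hE : ∀ x ∈ M, ‖cc x‖ ≤ E)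
    (hB : ∀ ρ ∈ M, ‖∑' x : {x : K // x ∈ M}, ci K j M ρ x * P x‖ ≤ B) :
    ‖∑' x : {x : K // x ∈ M}, cc x * P x‖ ≤ X.card * (E * B) := by
  have hs : ∀ ρ : K, Summable (fun x : {x : K // x ∈ M} => ci K j M ρ x * P x) := by
    intro ρ
    refine summable_of_hasFiniteSupport (hfin.subset fun x hx => ?_)
    intro h
    apply hx
    change ci K j M ρ x * P x = 0
    rw [h, mul_zero]
  have h1 : ∑' x : {x : K // x ∈ M}, cc x * P x =
      ∑' x : {x : K // x ∈ M}, ∑ ρ ∈ X, cc ρ * (ci K j M ρ x * P x) := by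
    refine tsum_congr fun x => ?_
    obtain ⟨ρ, ⟨hρ, hρ'⟩, hu⟩ := hX.2 x.1 x.2
    rw [Finset.sum_eq_single ρ]
    · have h2 : ci K j M ρ x = 1 := by
        unfold ci
        rw [if_pos hρ']
      have h3 : cc x.1 = cc ρ := by
        have h4 := hcc ρ (hX.1 ρ hρ) (x.1 - ρ) (rs_mono hlj M hρ')
        rwa [add_sub_cancel] at h4
      rw [h2, h3, one_mul]
    · intro σ hσ hne
      have h2 : ci K j M σ x = 0 := by
        unfold ci
        rw [if_neg]
        exact fun h => hne (hu σ ⟨hσ, h⟩)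
      rw [h2, zero_mul, mul_zero]
    · exact fun h => absurd hρ h
  rw [h1, Summable.tsum_finsetSum (fun ρ _ => (hs ρ).mul_left _)]
  have h4 : ∀ ρ ∈ X, ‖∑' x : {x : K // x ∈ M}, cc ρ * (ci K j M ρ x * P x)‖ ≤ E * B := by
    intro ρ hρ
    rw [tsum_mul_left, norm_mul]
    exact mul_le_mul (hE _ (hX.1 _ hρ)) (hB ρ (hX.1 _ hρ)) (norm_nonneg _)
      ((norm_nonneg _).trans (hE _ (hX.1 _ hρ)))
  refine ((norm_sum_le _ _).trans (Finset.sum_le_card_nsmul _ _ _ h4)).trans (le_of_eq ?_)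
  rw [nsmul_eq_mul]

end

theorem pf_RS (hCU : W_CU) (hME : X_ME) (hRX : T_RX) : X_RS := by
  intro n p hn hp
  obtain ⟨C, hC, hC'⟩ := hME n p hn hp
  refine ⟨C, hC, ?_⟩
  intro K _ _ hK l k M q cc y ω c E hl hk hM hω hCD hc hper hE
  have hr : k.radical ≠ ⊥ := fun h => hk (le_bot_iff.1 (h ▸ Ideal.le_radical))
  have hj : l * k.radical ≠ ⊥ := mul_ne_zero hl hr
  obtain ⟨X, hX, hXc⟩ := hRX K (l * k.radical) M hj hM
  obtain ⟨C₂, -, hC₂⟩ := hCU n hn
  have hfin : {x : {x : K // x ∈ M} |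
      (fun x => q x * pF (fun v => GG (p (rv v)) (c v)) y ω x) x.1 ≠ 0}.Finite := by
    have h1 := (hC₂ K hK M y ω (fun _ => 1) (fun _ => 1 / 10000) hM hω
      (fun _ => by norm_num)).1
    refine Set.Finite.of_finite_image (f := Subtype.val) (h1.subset ?_)
      Subtype.val_injective.injOn
    rintro _ ⟨x, hx, rfl⟩
    refine ⟨x.2, fun v => ?_⟩
    by_contra hv
    apply hx
    have h2 : pF (fun v => GG (p (rv v)) (c v)) y ω x.1 = 0 := by
      unfold pF
      refine Finset.prod_eq_zero (Finset.mem_univ v) ?_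
      change EE (c v * Complex.log (wv v x.1 y ω)) * p (rv v) (wv v x.1 y ω - 1) = 0
      rw [hp.2 _ _ (not_le.1 hv), mul_zero]
    change q x.1 * pF (fun v => GG (p (rv v)) (c v)) y ω x.1 = 0
    rw [h2, mul_zero]
  have hB : ∀ ρ ∈ M, ‖∑' x : {x : K // x ∈ M}, ci K (l * k.radical) M ρ x *
      (fun x => q x * pF (fun v => GG (p (rv v)) (c v)) y ω x) x.1‖ ≤
      C * Nf K k.radical ^ 3 * dK K ^ (5 / 4 : ℝ) * (1 + DD M y / Nf K l) ^ (1 / 2 : ℝ) *
        (PP (fun v => 1 + ‖c v‖) * Nf K k) ^ (27 / 164 : ℝ) *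
          (1 + DD M y / Nf K l / (PP (fun v => 1 + ‖c v‖) * Nf K k) ^ (1 / 2 : ℝ)) ^
            (3 / 4 : ℝ) := by
    intro ρ hρ
    have h := hC' K hK l k M q y ω c ρ hl hk hM hω hCD hc hρ
    refine (le_of_eq ?_).trans h
    congr 1
    exact tsum_congr fun x => (mul_assoc _ _ _).symm
  have h := rs_sum l (l * k.radical) Ideal.mul_le_left M X hX cc
    (fun x => q x * pF (fun v => GG (p (rv v)) (c v)) y ω x) E _ hfin hper hE hB
  refine ((le_of_eq ?_).trans h).trans (le_of_eq ?_)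
  · congr 1
    exact tsum_congr fun x => mul_assoc _ _ _
  · have h3 : (X.card : ℝ) = Nf K l * Nf K k.radical := by
      rw [hXc]
      unfold Nf
      rw [map_mul]
      push_cast
      rfl
    rw [h3]
    ring

end Pool.Agent.H31.SWX
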