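import Pool.Agent.H31.SX.TargetsS
import Pool.Agent.H29.DW.Tools

/-!
# The sub-Weyl bound in the whole conductor: the final row
-/

set_option autoImplicit false
set_option linter.unusedVariables false
set_option linter.unusedSectionVars false

open NumberField NumberField.InfinitePlace NumberField.Units
  NumberField.Units.dirichletUnitTheorem MeasureTheory Set Filter Complex
open scoped nonZeroDivisors ENNReal

namespace Pool.Agent.H31.SWX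

open Pool.Agent.H25.HK Pool.Agent.H23.LB Pool.Agent.H23.LC Pool.Agent.H31.SW Pool.Agent.H31.SX
open Pool.Agent.H29.DW (cpar Ci Wt one_le_Ci V_AE V_GH)

section

variable {K : Type} [Field K] [NumberField K]

private theorem one_le_Nf {f : Ideal (𝓞 K)} (hf : f ≠ ⊥) : 1 ≤ Nf K f := by
  unfold Nf
  have h : Ideal.absNorm f ≠ 0 := fun h => hf (Ideal.absNorm_eq_zero_iff.1 h)
  exact_mod_cast Nat.one_le_iff_ne_zero.2 h

private theorem one_le_discr : 1 ≤ |(discr K : ℝ)| := by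
  have h : (1 : ℤ) ≤ |discr K| := Int.one_le_abs (discr_ne_zero K)
  have h2 : ((1 : ℤ) : ℝ) ≤ ((|discr K| : ℤ) : ℝ) := by exact_mod_cast h
  simpa using h2

private theorem norm_psi_le {f : Ideal (𝓞 K)} (χ : HG K f) (J : Ideal (𝓞 K)) : ‖χ.ψ J‖ ≤ 1 := by
  by_cases h1 : J = ⊥
  · rw [h1, χ.map_bot, norm_zero]
    exact zero_le_one
  · by_cases h2 : J ⊔ f = ⊤
    · exact (χ.norm_one J h1 h2).le
    · rw [χ.eq_zero J h2, norm_zero]
      exact zero_le_one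

private theorem gf_diff (hGE : U_GE) {f : Ideal (𝓞 K)} (hf : f ≠ ⊥) (χ : HG K f) (s : ℂ)
    (hs : 0 < s.re) : DifferentiableAt ℂ (gf χ) s := by
  have h1 := (hGE K χ.k (-χ.ν) χ.real_k).2.1 s hs
  have h2 := (hGE K χ.k χ.ν χ.real_k).1
  have h3 : DifferentiableAt ℂ (fun s => (gG K χ.k χ.ν (1 - s))⁻¹) s :=
    (h2 (1 - s)).comp s (by fun_prop)
  have h4 : DifferentiableAt ℂ
      (fun s : ℂ => (((|(discr K : ℝ)| * Nf K f : ℝ) : ℂ)) ^ (s - 1 / 2)) s := by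
    refine DifferentiableAt.const_cpow (by fun_prop) (Or.inl ?_)
    have h5 := one_le_Nf hf
    have h6 := one_le_discr (K := K)
    exact_mod_cast (by positivity : |(discr K : ℝ)| * Nf K f ≠ 0)
  have h5 : gf χ = fun s => (-I) ^ dk K χ.k *
      (((|(discr K : ℝ)| * Nf K f : ℝ) : ℂ)) ^ (s - 1 / 2) *
        (gG K χ.k (-χ.ν) s * (gG K χ.k χ.ν (1 - s))⁻¹) := by
    funext s
    rfl
  rw [h5]
  exact ((differentiableAt_const _).mul h4).mul (h1.2.mul h3)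

end

/-- the numbers -/
private theorem fin_num {d N N' r T h C₄ κ ε : ℝ} (hd : 1 ≤ d) (hN : 1 ≤ N) (hN' : 1 ≤ N')
    (hr : 1 ≤ r) (hT : 1 ≤ T) (hh : 0 ≤ h) (hκ0 : 0 < κ) (hκ : κ ≤ 1 / 8) (hκε : κ ≤ ε)
    (hC : 0 ≤ C₄) (hR : h ≤ C₄ * d ^ (1 / 2 + κ)) :
    h * N ^ (3 / 2 : ℝ) * r ^ 4 * d ^ (13 / 8 : ℝ) * (d * (N * N') * T) ^ κ *
      (T * N') ^ (27 / 164 : ℝ) ≤
      C₄ * (d ^ (5 / 2 : ℝ) * N ^ 2 * r ^ 4 * (N' * T) ^ (27 / 164 + ε : ℝ)) := by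
  have hd0 : 0 < d := by linarith
  have hN0 : 0 < N := by linarith
  have hN0' : 0 < N' := by linarith
  have hT0 : 0 < T := by linarith
  have hr0 : 0 < r := by linarith
  have hNT : 1 ≤ N' * T := one_le_mul_of_one_le_of_one_le hN' hT
  have hNT0 : 0 < N' * T := by positivity
  have e1 : (d * (N * N') * T) ^ κ = d ^ κ * N ^ κ * (N' * T) ^ κ := by
    rw [show d * (N * N') * T = (d * N) * (N' * T) by ring,
      Real.mul_rpow (by positivity) hNT0.le, Real.mul_rpow hd0.le hN0.le]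
  have e2 : d ^ (1 / 2 + κ) * d ^ (13 / 8 : ℝ) * d ^ κ ≤ d ^ (5 / 2 : ℝ) := by
    rw [← Real.rpow_add hd0, ← Real.rpow_add hd0]
    exact Real.rpow_le_rpow_of_exponent_le hd (by linarith)
  have e3 : N ^ (3 / 2 : ℝ) * N ^ κ ≤ N ^ 2 := by
    rw [← Real.rpow_add hN0, ← Real.rpow_natCast]
    exact Real.rpow_le_rpow_of_exponent_le hN (by push_cast; linarith)
  have e4 : (N' * T) ^ κ * (N' * T) ^ (27 / 164 : ℝ) ≤ (N' * T) ^ (27 / 164 + ε : ℝ) := by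
    rw [← Real.rpow_add hNT0]
    exact Real.rpow_le_rpow_of_exponent_le hNT (by linarith)
  rw [e1, show T * N' = N' * T by ring]
  calc h * N ^ (3 / 2 : ℝ) * r ^ 4 * d ^ (13 / 8 : ℝ) * (d ^ κ * N ^ κ * (N' * T) ^ κ) *
        (N' * T) ^ (27 / 164 : ℝ)
      ≤ (C₄ * d ^ (1 / 2 + κ)) * N ^ (3 / 2 : ℝ) * r ^ 4 * d ^ (13 / 8 : ℝ) *
        (d ^ κ * N ^ κ * (N' * T) ^ κ) * (N' * T) ^ (27 / 164 : ℝ) := by gcongr
    _ = C₄ * ((d ^ (1 / 2 + κ) * d ^ (13 / 8 : ℝ) * d ^ κ) * (N ^ (3 / 2 : ℝ) * N ^ κ) * r ^ 4 *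
        ((N' * T) ^ κ * (N' * T) ^ (27 / 164 : ℝ))) := by ring
    _ ≤ _ := by gcongr

theorem pf_SW (hBP : X_BP) (hBQ : X_BQ) (hAE : V_AE) (hGH : V_GH) (hFK : U_FK)
    (hHR : Pool.Agent.H29.TC.T_HR) (hSY : T_SY) (hDS : T_DS) (hDC : U_DC) (hGE : U_GE) :
    X_SW := by
  intro n hn0 ε hε
  set κ : ℝ := min ε 1 / 8 with hκ
  have hκ0 : 0 < κ := by
    rw [hκ]
    have := lt_min hε one_pos
    positivity
  have hκ8 : κ ≤ 1 / 8 := by
    rw [hκ]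
    have := min_le_right ε 1
    linarith
  have hκε : κ ≤ ε := by
    rw [hκ]
    have := min_le_left ε 1
    have := lt_min hε one_pos
    linarith
  have hκ1 : κ ≤ 1 := by linarith
  obtain ⟨C₁, hC₁, hP⟩ := hBP n hn0 κ hκ0 hκ1
  obtain ⟨C₂, hC₂, hQ⟩ := hBQ n hn0 κ hκ0 hκ1
  obtain ⟨C₀, hC₀, hA⟩ := hAE n
  obtain ⟨C₃, hC₃, hG⟩ := hGH n
  obtain ⟨C₄, hR⟩ := hHR n κ hκ0
  refine ⟨(C₁ + C₂) * (C₀ * κ⁻¹ * max 1 C₃) * max 0 C₄, ?_⟩
  intro K _ _ hn l k hlk χ hPr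
  have hf0 : l * k ≠ ⊥ := by
    have h1 := mul_ne_zero (show l ≠ 0 from hlk.l_ne) (show k ≠ 0 from hlk.k_ne)
    exact h1
  have hNl1 := one_le_Nf hlk.l_ne
  have hNk1 := one_le_Nf hlk.k_ne
  have hr0 : k.radical ≠ ⊥ := fun h => hlk.k_ne (le_bot_iff.1 (h ▸ Ideal.le_radical))
  have hNr1 := one_le_Nf hr0
  have hNf : Nf K (l * k) = Nf K l * Nf K k := by
    unfold Nf
    rw [map_mul]
    push_cast
    rfl
  obtain ⟨D⟩ := hSY K _ hf0
  obtain ⟨L, ⟨h1, h2, ⟨E, hE1, hE2, hE3⟩, h4⟩, hent⟩ := hFK K _ hf0 D χ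
  refine ⟨L, h1, h2, hent, fun t => ?_⟩
  have hd1 := one_le_discr (K := K)
  have hNf1 := one_le_Nf hf0
  have hCi1 := one_le_Ci χ.k χ.ν t
  set Q : ℝ := |(discr K : ℝ)| * Nf K (l * k) * Ci χ.k χ.ν t with hQd
  have hQ1 : 1 ≤ Q := by
    rw [hQd]
    exact one_le_mul_of_one_le_of_one_le (one_le_mul_of_one_le_of_one_le hd1 hNf1) hCi1
  have hQ0 : 0 < Q := by linarith
  set X : ℝ := Real.sqrt Q with hX
  have hX0 : 0 < X := Real.sqrt_pos.2 hQ0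
  -- the factor of the functional equation
  have hgf : ∀ s : ℂ, 1 / 2 ≤ s.re → s.re ≤ 3 / 2 → ‖gf χ s‖ ≤
      max 1 C₃ * X ^ (2 * (s.re - 1 / 2)) * (1 + |s.im + t|) ^ n := by
    intro s hs hs'
    have h5 := hG K hn χ.k χ.ν t χ.real_k s hs hs'
    have hdN : 0 < |(discr K : ℝ)| * Nf K (l * k) := by positivity
    unfold gf
    rw [norm_mul, norm_mul, norm_pow, norm_neg, Complex.norm_I, one_pow, one_mul,
      Complex.norm_cpow_eq_rpow_re_of_pos hdN]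
    have h6 : (s - 1 / 2 : ℂ).re = s.re - 1 / 2 := by
      rw [Complex.sub_re]
      norm_num
    rw [h6]
    have h7 : X ^ (2 * (s.re - 1 / 2)) = (|(discr K : ℝ)| * Nf K (l * k)) ^ (s.re - 1 / 2) *
        Ci χ.k χ.ν t ^ (s.re - 1 / 2) := by
      rw [hX, Real.sqrt_eq_rpow, ← Real.rpow_mul hQ0.le, hQd,
        ← Real.mul_rpow hdN.le (by linarith)]
      congr 1
      ring
    rw [h7]
    have h8 : C₃ * Ci χ.k χ.ν t ^ (s.re - 1 / 2) * (1 + |s.im + t|) ^ n ≤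
        max 1 C₃ * Ci χ.k χ.ν t ^ (s.re - 1 / 2) * (1 + |s.im + t|) ^ n := by
      gcongr
      exact le_max_right _ _
    calc (|(discr K : ℝ)| * Nf K (l * k)) ^ (s.re - 1 / 2) *
          ‖gG K χ.k (-χ.ν) s * (gG K χ.k χ.ν (1 - s))⁻¹‖
        ≤ (|(discr K : ℝ)| * Nf K (l * k)) ^ (s.re - 1 / 2) *
          (max 1 C₃ * Ci χ.k χ.ν t ^ (s.re - 1 / 2) * (1 + |s.im + t|) ^ n) :=
          mul_le_mul_of_nonneg_left (h5.trans h8) (by positivity)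
      _ = _ := by ring
  obtain ⟨v, v', hv, hv', hL⟩ := hA κ hκ0 hκ1 (NZI K) L E (gf χ) (fun J => χ.ψ J.1)
    (fun J => cd D χ J.1) (fun J => (Ideal.absNorm J.1 : ℝ)) X t (max 1 C₃) hX0
    (le_max_left _ _)
    (fun J => one_le_Nf J.2)
    (fun σ hσ => by
      have h5 := (hDS K (σ : ℂ) (by simpa using hσ)).1
      refine h5.congr fun J => ?_
      have h6 : (0 : ℝ) < (Ideal.absNorm J.1 : ℝ) := by
        have := one_le_Nf J.2
        unfold Nf at this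
        linarith
      have h7 := Complex.norm_cpow_eq_rpow_re_of_pos h6 (-(σ : ℂ))
      rw [Complex.ofReal_natCast] at h7
      rw [h7]
      simp only [Complex.neg_re, Complex.ofReal_re])
    ⟨max 1 (Real.sqrt (Nf K (l * k))), fun J => ⟨(norm_psi_le χ J.1).trans (le_max_left _ _),
      ((hDC K _ hf0 D χ).1 J.1).trans (le_max_right _ _)⟩⟩
    hE1 hE2 (hE3 3)
    (fun s hs => by
      rw [h1 s hs]
      unfold HG.series
      refine tsum_congr fun J => ?_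
      rw [Complex.ofReal_natCast])
    (fun s hs => by
      rw [h4 s hs]
      unfold serd
      exact congrArg (fun z => gf χ s * z) (tsum_congr fun J => by
        rw [Complex.ofReal_natCast]))
    (fun s hs => gf_diff hGE hf0 χ s hs) hgf
  rw [hL]
  have hB0 : 0 ≤ C₀ * κ⁻¹ * max 1 C₃ := by
    have := le_max_left 1 C₃
    positivity
  have hp1 := hP K hn l k hlk χ hPr t (C₀ * κ⁻¹ * max 1 C₃) v hB0 hv
  have hq1 := hQ K hn l k hlk D χ hPr t (C₀ * κ⁻¹ * max 1 C₃) v' hB0 hv'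
  rw [← hQd] at hp1 hq1
  set B : ℝ := C₀ * κ⁻¹ * max 1 C₃ with hB
  have hS : ∑' J : NZI K, χ.ψ J.1 * v (Ideal.absNorm J.1 : ℝ) *
      (((Ideal.absNorm J.1 : ℝ) : ℂ)) ^ (-(t * I : ℂ)) =
      ∑' J : NZI K, χ.ψ J.1 * v (Ideal.absNorm J.1) *
      (Ideal.absNorm J.1 : ℂ) ^ (-(t * I : ℂ)) :=
    tsum_congr fun J => by rw [Complex.ofReal_natCast]
  have hS' : ∑' J : NZI K, cd D χ J.1 * v' (Ideal.absNorm J.1 : ℝ) *
      (((Ideal.absNorm J.1 : ℝ) : ℂ)) ^ (t * I : ℂ) =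
      ∑' J : NZI K, cd D χ J.1 * v' (Ideal.absNorm J.1) *
      (Ideal.absNorm J.1 : ℂ) ^ (t * I : ℂ) :=
    tsum_congr fun J => by rw [Complex.ofReal_natCast]
  rw [hS, hS']
  refine (norm_add_le _ _).trans ?_
  have hreg : 0 < regulator K := regulator_pos K
  have hh0 : 0 ≤ (classNumber K : ℝ) * regulator K := by positivity
  set W : ℝ := (classNumber K * regulator K) * Nf K l ^ (3 / 2 : ℝ) * Nf K k.radical ^ 4 *
    |(discr K : ℝ)| ^ (13 / 8 : ℝ) * Q ^ κ * (Ci χ.k χ.ν t * Nf K k) ^ (27 / 164 : ℝ) with hW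
  have hW0 : 0 ≤ W := by
    rw [hW]
    positivity
  have h5 : ‖∑' J : NZI K, χ.ψ J.1 * v (Ideal.absNorm J.1) *
      (Ideal.absNorm J.1 : ℂ) ^ (-(t * I : ℂ))‖ ≤ C₁ * B * W := by
    refine hp1.trans ?_
    have h6 : Nf K l ≤ Nf K l ^ (3 / 2 : ℝ) := by
      conv_lhs => rw [← Real.rpow_one (Nf K l)]
      exact Real.rpow_le_rpow_of_exponent_le hNl1 (by norm_num)
    unfold dK
    calc C₁ * B * (classNumber K * regulator K) * Nf K l * Nf K k.radical ^ 4 *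
        |(discr K : ℝ)| ^ (13 / 8 : ℝ) * Q ^ κ * (Ci χ.k χ.ν t * Nf K k) ^ (27 / 164 : ℝ)
        ≤ C₁ * B * (classNumber K * regulator K) * Nf K l ^ (3 / 2 : ℝ) *
          Nf K k.radical ^ 4 * |(discr K : ℝ)| ^ (13 / 8 : ℝ) * Q ^ κ *
            (Ci χ.k χ.ν t * Nf K k) ^ (27 / 164 : ℝ) := by gcongr
      _ = C₁ * B * W := by
          rw [hW]
          ring
  have h6 : ‖∑' J : NZI K, cd D χ J.1 * v' (Ideal.absNorm J.1) *
      (Ideal.absNorm J.1 : ℂ) ^ (t * I : ℂ)‖ ≤ C₂ * B * W := by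
    refine hq1.trans (le_of_eq ?_)
    unfold dK
    rw [hW]
    ring
  refine (add_le_add h5 h6).trans ?_
  have h7 : W ≤ max 0 C₄ * (|(discr K : ℝ)| ^ (5 / 2 : ℝ) * Nf K l ^ 2 * Nf K k.radical ^ 4 *
      (Nf K k * Ci χ.k χ.ν t) ^ (27 / 164 + ε : ℝ)) := by
    rw [hW, hQd, hNf]
    refine fin_num hd1 hNl1 hNk1 hNr1 hCi1 hh0 hκ0 hκ8 hκε (le_max_left _ _)
      ((hR K hn).trans ?_)
    gcongr
    exact le_max_right _ _
  calc C₁ * B * W + C₂ * B * W = (C₁ + C₂) * B * W := by ring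
    _ ≤ (C₁ + C₂) * B * (max 0 C₄ * (|(discr K : ℝ)| ^ (5 / 2 : ℝ) * Nf K l ^ 2 *
        Nf K k.radical ^ 4 * (Nf K k * Ci χ.k χ.ν t) ^ (27 / 164 + ε : ℝ))) := by gcongr
    _ = _ := by
        unfold Nf
        ring

end Pool.Agent.H31.SWX
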