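import Pool.Agent.H31.SWL.All
import Pool.Agent.H31.SX.TargetsR
import Pool.Agent.H31.SX.TargetsD
import Pool.Agent.H31.SX.TargetsS
import Pool.Agent.H86.SWX.RA
import Pool.Agent.H60.SWX.RB
import Pool.Agent.H60.SWX.RC
import Pool.Agent.H96.SWX.RD
import Pool.Agent.H95.SWX.RE
import Pool.Agent.H96.SWX.RF
import Pool.Agent.H95.SWX.RG
import Pool.Agent.H97.SWX.RH
import Pool.Agent.H81.SWX.KP
import Pool.Agent.H20.SX.DV
import Pool.Agent.H20.SX.GX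
import Pool.Agent.H4.SWX.DY
import Pool.Agent.H27.SX.SG
import Pool.Agent.H97.SWX.SH
import Pool.Agent.H31.SWX.FD
import Pool.Agent.H97.SWX.CF
import Pool.Agent.H16.SWX.CD
import Pool.Agent.H69.SWX.PO
import Pool.Agent.H68.SWX.P3
import Pool.Agent.H86.SWX.GD
import Pool.Agent.H69.SWX.SD
import Pool.Agent.H63.SWX.ME
import Pool.Agent.H31.SWX.RS
import Pool.Agent.H70.SWX.BI
import Pool.Agent.H31.SWX.BP
import Pool.Agent.H34.SX.BQ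
import Pool.Agent.H31.SWX.SW

/-!
# The sub-Weyl bound in the whole conductor: assembly
-/

set_option autoImplicit false

open NumberField NumberField.InfinitePlace Complex

namespace Pool.Agent.H31.SWX.All

open Pool.Agent.H31.SX Pool.Agent.H31.SWL.All Pool.Agent.H29.DW.Base
open Pool.Agent.H29.DW.All (d_PG d_AE d_GH d_SG)
open Pool.Agent.H29.THC.Base (c_TH c_YC c_DU c_RX c_PU c_RR c_SY c_NS c_FP c_ID c_ME c_UI c_CT)
open Pool.Agent.H29.THC.All (a_HR a_GX a_EX a_CQ a_CS a_TR)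

theorem x_RA : X_RA := Pool.Agent.H86.SWX.pf_RA
theorem x_RB : X_RB := Pool.Agent.H60.SWX.pf_RB
theorem x_RC : X_RC := Pool.Agent.H60.SWX.pf_RC
theorem x_RD : X_RD := Pool.Agent.H96.SWX.pf_RD x_RA x_RB
theorem x_RE : X_RE := Pool.Agent.H95.SWX.pf_RE x_RA x_RB x_RD
theorem x_RF : X_RF := Pool.Agent.H96.SWX.pf_RF x_RA x_RB x_RC x_RD x_RE
theorem x_RG : X_RG := Pool.Agent.H95.SWX.pf_RG
theorem x_RH : X_RH := Pool.Agent.H97.SWX.RH.pf_RH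
theorem x_KP : X_KP := Pool.Agent.H81.SWX.pf_KP
theorem x_DV : X_DV := Pool.Agent.H20.SX.DV.pf_DV
theorem x_GX : X_GX := Pool.Agent.H20.SX.GX.pf_GX
theorem x_DY : X_DY := Pool.Agent.H4.SWX.pf_DY x_DV w_DY
theorem x_SG : X_SG := Pool.Agent.H27.SX.pf_SG u_AG
theorem x_SH : X_SH := Pool.Agent.H97.SWX.SH.pf_SH
theorem x_FD : X_FD := Pool.Agent.H31.SWX.FD.pf_FD x_RA
theorem x_CF : X_CF := Pool.Agent.H97.SWX.CF.pf_CF x_RA a_GX
theorem x_CD : X_CD := Pool.Agent.H16.SWX.pf_CD x_RF x_RG x_RH x_GX x_FD x_CF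
theorem x_PO : X_PO := Pool.Agent.H69.SWX.pf_PO d_PG
theorem x_P3 : X_P3 := Pool.Agent.H68.SWX.pf_P3 w_L3 w_WS x_PO w_HU c_DU c_RX
theorem x_GD : X_GD := Pool.Agent.H86.SWX.pf_GD w_CU w_CL w_TD w_NG x_P3 x_KP x_DY x_GX
theorem x_SD : X_SD := Pool.Agent.H69.SWX.pf_SD w_DE x_PO x_GD w_SX w_PE
theorem x_ME : X_ME := Pool.Agent.H63.SWX.ME.pf_ME w_CU w_CL w_WD w_NM w_NB x_KP x_SD
theorem x_RS : X_RS := Pool.Agent.H31.SWX.pf_RS w_CU x_ME c_RX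
theorem x_BI : X_BI := Pool.Agent.H70.SWX.pf_BI x_RS w_IN w_MS c_RR c_YC c_FD
theorem x_BP : X_BP := Pool.Agent.H31.SWX.pf_BP w_UP w_WL x_BI x_SG x_CD a_GX c_SY
theorem x_BQ : X_BQ := Pool.Agent.H34.SX.pf_BQ w_UQ w_WL x_BI x_SG x_SH x_CD u_CG a_GX c_RX c_RR
theorem x_SW : X_SW := Pool.Agent.H31.SWX.pf_SW x_BP x_BQ d_AE d_GH u_FK a_HR c_SY Pool.Agent.H63.HK.ds u_DC u_GE

end Pool.Agent.H31.SWX.All
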